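import Pool.Agent.MP_c1891a_nt.H43.Spec

/-
Infinitely many common zeros give a common point over an ultrapower; the pair statement.
-/

namespace Pool.Agent.MP_c1891a_nt.H43

open Finset Filter

/-- the ultrapower of the complex numbers. -/
abbrev FinK : Type := Filter.Germ ((hyperfilter ℕ : Ultrafilter ℕ) : Filter ℕ) ℂ

/-- the class of a sequence. -/
noncomputable def finG : (ℕ → ℂ) →+* FinK := Filter.Germ.coeRingHom _

theorem fin_eq {f g : ℕ → ℂ} :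
    finG f = finG g ↔ f =ᶠ[((hyperfilter ℕ : Ultrafilter ℕ) : Filter ℕ)] g :=
  Filter.Germ.coe_eq

theorem fin_zpow (f : ℕ → ℂ) (z : ℤ) : finG (fun n => f n ^ z) = finG f ^ z := rfl

theorem fin_ev (P : LP) (f g : ℕ → ℂ) :
    ev P (finG f) (finG g) = finG (fun n => ev P (f n) (g n)) := by
  have h : (fun n => ev P (f n) (g n)) = ∑ μ ∈ P.coeff.support,
      ((P.coeff μ : ℤ) : ℕ → ℂ) * (fun n => f n ^ μ.1) * (fun n => g n ^ μ.2) := by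
    funext n
    simp [ev]
  rw [h, map_sum, ev]
  refine Finset.sum_congr rfl fun μ _ => ?_
  rw [map_mul, map_mul, map_intCast, fin_zpow, fin_zpow]

theorem sFin (h : SCls) : SFin := by
  intro P Q hP hQ
  obtain ⟨B, hB⟩ := h P Q hP hQ
  refine ⟨B, fun η v w hη hm h1 h2 hinf => ?_⟩
  let z : ℕ ↪ ZS P Q η v w := hinf.natEmbedding _
  let _ : Algebra ℂ FinK := (finG.comp (Pi.constRingHom ℕ ℂ)).toAlgebra
  have hc : ∀ c : ℂ, algebraMap ℂ FinK c = finG (fun _ => c) := fun c => rfl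
  let p : ℕ → ℂ := fun n => (z n).1.1
  let q : ℕ → ℂ := fun n => (z n).1.2
  have hne : ∀ f : ℕ → ℂ, (∀ n, f n ≠ 0) → finG f ≠ 0 := by
    intro f hf h0
    rw [← map_zero finG, fin_eq] at h0
    obtain ⟨n, hn⟩ := h0.exists
    exact hf n hn
  have hmon : ∀ (c : ℂ) (a b : ℤ), algebraMap ℂ FinK c * finG p ^ a * finG q ^ b =
      finG (fun n => c * p n ^ a * q n ^ b) := by
    intro c a b
    rw [hc, ← fin_zpow, ← fin_zpow, ← map_mul, ← map_mul]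
    rfl
  refine hB FinK (finG p) (finG q) (hne p fun n => (z n).2.1) (hne q fun n => (z n).2.2.1) ?_
    η v w hη hm h1 h2 ?_ ?_
  · by_contra hcon
    push Not at hcon
    obtain ⟨⟨c, hc1⟩, ⟨d, hd1⟩⟩ := hcon
    rw [hc, fin_eq] at hc1 hd1
    have h3 : {n | z n = z n ∧ (z n).1 = (c, d)} ∈ hyperfilter ℕ := by
      filter_upwards [hc1, hd1] with n e1 e2
      exact ⟨rfl, Prod.ext e1.symm e2.symm⟩
    refine Filter.notMem_hyperfilter_of_finite ?_ h3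
    refine Set.Subsingleton.finite fun a ha b hb => ?_
    exact z.injective (Subtype.ext (ha.2.trans hb.2.symm))
  · rw [hmon, hmon, fin_ev, ← map_zero finG]
    congr 1
    funext n
    exact (z n).2.2.2.1
  · rw [hmon, hmon, fin_ev, ← map_zero finG]
    congr 1
    funext n
    exact (z n).2.2.2.2

theorem fin_mono {η₀ η₁ η₂ p q : ℂ} (hp : p ≠ 0) (hq : q ≠ 0) {m : ℕ}
    {a b v₀ v₁ v₂ w₀ w₁ w₂ : ℤ} (e1 : m * v₂ = a * v₀ + b * v₁) (e2 : m * w₂ = a * w₀ + b * w₁)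
    (e3 : η₂ ^ m = η₀ ^ a * η₁ ^ b) :
    (η₂ * p ^ v₂ * q ^ w₂) ^ m = (η₀ * p ^ v₀ * q ^ w₀) ^ a * (η₁ * p ^ v₁ * q ^ w₁) ^ b := by
  have h1 : (p ^ v₂) ^ m = (p ^ v₀) ^ a * (p ^ v₁) ^ b := by
    rw [← zpow_natCast, ← zpow_mul, ← zpow_mul, ← zpow_mul, ← zpow_add₀ hp]
    congr 1
    linear_combination e1
  have h2 : (q ^ w₂) ^ m = (q ^ w₀) ^ a * (q ^ w₁) ^ b := by
    rw [← zpow_natCast, ← zpow_mul, ← zpow_mul, ← zpow_mul, ← zpow_add₀ hq]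
    congr 1
    linear_combination e2
  rw [mul_pow, mul_pow, h1, h2, e3, mul_zpow, mul_zpow, mul_zpow, mul_zpow]
  ring

theorem fin_rpow0 (k n N M : ℕ) (t : ℝ) (ht : 0 ≤ t) (hN : n ^ k ≤ N) (hM : M ≤ n * N) :
    (M : ℝ) ^ ((k : ℝ) * t) ≤ (N : ℝ) ^ (((k + 1 : ℕ) : ℝ) * t) := by
  have h1 : (M : ℝ) ^ k ≤ (N : ℝ) ^ (k + 1) := by
    have : M ^ k ≤ N ^ (k + 1) := by
      calc M ^ k ≤ (n * N) ^ k := Nat.pow_le_pow_left hM _
        _ = n ^ k * N ^ k := mul_pow _ _ _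
        _ ≤ N * N ^ k := Nat.mul_le_mul_right _ hN
        _ = N ^ (k + 1) := (pow_succ' _ _).symm
    exact_mod_cast this
  have h2 := Real.rpow_le_rpow (by positivity) h1 ht
  rwa [← Real.rpow_natCast, ← Real.rpow_natCast, ← Real.rpow_mul (Nat.cast_nonneg _),
    ← Real.rpow_mul (Nat.cast_nonneg _)] at h2

theorem fin_rpow (n : ℕ) : ∃ N₀ : ℕ, ∀ N M : ℕ, N₀ ≤ N → M ≤ n * N →
    (M : ℝ) ^ (979 / 1000 : ℝ) ≤ (N : ℝ) ^ (49 / 50 : ℝ) := by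
  obtain ⟨k, hk⟩ : ∃ k : ℕ, (k : ℝ) = 979 := ⟨979, by norm_num⟩
  refine ⟨n ^ k, fun N M hN hM => ?_⟩
  have h2 := fin_rpow0 k n N M (1 / 1000) (by norm_num) hN hM
  have e1 : (k : ℝ) * (1 / 1000) = 979 / 1000 := by rw [hk]; norm_num
  have e2 : ((k + 1 : ℕ) : ℝ) * (1 / 1000) = 49 / 50 := by push_cast; rw [hk]; norm_num
  rwa [e1, e2] at h2

theorem sPair (h1 : SFin) (h2 : SAnom) (h3 : SGen) : SPair := by
  intro P Q hP hQ
  obtain ⟨B, hB⟩ := h1 P Q hP hQ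
  obtain ⟨M₀, hM₀⟩ := h2 P Q
  refine ⟨B, fun n => ?_⟩
  obtain ⟨N₁, hN₁⟩ := fin_rpow n
  refine ⟨max M₀ N₁, ?_⟩
  intro N M x y x' y' hN hM hMn hx hy hx' hy' hord hPxy hQxy hs1 hs2
  obtain ⟨N', ξ, e, hN', hdvd, hξ, hgen, hxe, -⟩ := h3 4 ![x, y, x', y'] M hM (by
    intro i
    fin_cases i
    · exact hx
    · exact hy
    · exact hx'
    · exact hy')
  have e0 : x = ξ ^ e 0 := hxe 0
  have e1 : y = ξ ^ e 1 := hxe 1
  have e2 : x' = ξ ^ e 2 := hxe 2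
  have e3 : y' = ξ ^ e 3 := hxe 3
  have hpow : ∀ k : ℤ, (ξ ^ k) ^ N' = 1 := by
    intro k
    rw [← zpow_natCast, ← zpow_mul, mul_comm, zpow_mul, zpow_natCast, hξ.pow_eq_one, one_zpow]
  have hNN' : N ≤ N' := hord N' hN' (e0 ▸ hpow _) (e1 ▸ hpow _)
  have hN'M : N' ≤ n * N := (Nat.le_of_dvd hM hdvd).trans hMn
  have hexp : Real.exp (-(N : ℝ) ^ (49 / 50 : ℝ)) ≤ Real.exp (-(N' : ℝ) ^ (979 / 1000 : ℝ)) :=
    Real.exp_le_exp.2 (neg_le_neg (hN₁ N N' ((le_max_right _ _).trans hN) hN'M))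
  obtain ⟨η, v, w, p₀, q₀, hη, hp, hq, hm, hrep, hinf⟩ :=
    hM₀ N' (((le_max_left _ _).trans hN).trans hNN') ξ e hξ hgen (e0 ▸ e1 ▸ hPxy)
      (e2 ▸ e3 ▸ hQxy) (e0 ▸ e1 ▸ hs1.trans hexp) (e2 ▸ e3 ▸ hs2.trans hexp)
  obtain ⟨z, hz⟩ := hinf.nonempty
  have hA1 : v 0 ≠ 0 ∨ w 0 ≠ 0 ∨ v 1 ≠ 0 ∨ w 1 ≠ 0 := by
    by_contra hcon
    push Not at hcon
    obtain ⟨a0, a1, a2, a3⟩ := hcon
    have hz' := hz.2.2.1
    apply hPxy
    rw [e0, e1, hrep 0, hrep 1]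
    simpa [a0, a1, a2, a3] using hz'
  have hA2 : v 2 ≠ 0 ∨ w 2 ≠ 0 ∨ v 3 ≠ 0 ∨ w 3 ≠ 0 := by
    by_contra hcon
    push Not at hcon
    obtain ⟨a0, a1, a2, a3⟩ := hcon
    have hz' := hz.2.2.2
    apply hQxy
    rw [e2, e3, hrep 2, hrep 3]
    simpa [a0, a1, a2, a3] using hz'
  obtain ⟨m, a, b, c, d, hm0, hmB, ha, hb, hc, hd, r1, r2, r3, r4, r5, r6⟩ :=
    hB η v w hη hm hA1 hA2 hinf
  refine ⟨m, a, b, c, d, hm0, hmB, ha, hb, hc, hd, ?_, ?_⟩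
  · rw [e0, e1, e2, hrep 0, hrep 1, hrep 2]
    exact fin_mono hp hq r1 r2 r5
  · rw [e0, e1, e3, hrep 0, hrep 1, hrep 3]
    exact fin_mono hp hq r3 r4 r6

end Pool.Agent.MP_c1891a_nt.H43
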